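import Pool.Agent.Run7.h158.Bridge4
import Pool.Agent.Run7.h158.Unc2

open Pool.Agent.H914 Pool.Agent.H914.VarClass Pool.Agent.H914.VarClass.Obj Pool.Agent.W492.BB
  Run7.h158.St

/-- Let `X` and `Y` be derived equivalent hyper-Kähler varieties of dimension `2n`. There is an
isomorphism `G` of graded algebras from `H^*(X)` to `H^*(Y)`, respecting the rational classes and
the Hodge structures, such that for all graded subspaces `R` and `R'` of the Chow rings of `X` and
`Y` without nonzero numerically trivial classes and with `G (cl R) = cl R'`, there are a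
correspondence `Z` of degree zero from `X` to `Y` and mutually inverse classes `s`, `s'` of mixed
degrees, and for every `k` a correspondence `Z'` of degree zero from `Y` to `X`, such that

* `Z` and `Z'` induce `G` and its inverse,
* `Z` and `Z'` restrict to mutually inverse isomorphisms between `R` and `R'` which respect the
  products staying in these subspaces,
* for every filtration `F` of the Chow groups which is compatible with products, pull-backs and
  push-forwards and begins with `F^1 =` homologically trivial cycles, `Z' ∘ Z = [Δ_X]` and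
  `Z ∘ Z' = [Δ_Y]` modulo `F^k`, and `Z`, `Z'`, `s`, `s'` induce mutually inverse isomorphisms of
  bigraded rings between `Gr_F CH^*(T × X)` and `Gr_F CH^*(T × Y)`, for all varieties `T`.

Examples of such subspaces, for every divisor `h` on `X` with `h^(2n)` of nonzero degree, are
`R = LefDiv C n h` and `R' = LefDiv C n h'`, where `h'` is the divisor on `Y` with
`cl h' = G (cl h)`: these are the spaces spanned by the products of at most `n` divisors and by the
products of `h^(2e)` and `n - e` divisors.

Filtrations as above exist: `Run7.h158.isCompatible_homPowers_st` is the statement that the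
filtration by the powers of the homologically trivial cycles, which is the smallest one, is an
example. -/
theorem Pool.Agent.Results.MP_7216a2_ag.AssociatedGraded.result
    {𝒱 : VarClass ℂ} {C : TheoryData.{0, 0, 0} 𝒱 ℚ} (hC : IsChowTheory C)
    {H : WeilTheoryData.{0, 0, 0} C ℂ} (hH : IsWeilTheory H) {n : ℕ} {X Y : 𝒱.Obj}
    {V U : Type} [AddCommGroup V] [Module ℂ V] [AddCommGroup U] [Module ℂ U]
    (hX : HyperKahler H n X V) (hY : HyperKahler H n Y U) (D : DerivedEquivalence H hX hY) :
    ∃ G : H.A X → H.A Y, RespectsHodge H hX hY G ∧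
      (∀ h : C.A X, C.Deg 1 h → ¬ HasDeg C (pow C h (2 * n)) 0 →
        ∃ h' : C.A Y, C.Deg 1 h' ∧ cl H h' = G (cl H h) ∧ IsFaithful C (LefDiv C n h) ∧
          IsFaithful C (LefDiv C n h') ∧ Matches H G (LefDiv C n h) (LefDiv C n h')) ∧
      ∀ (R : C.A X → Prop) (R' : C.A Y → Prop), IsFaithful C R → IsFaithful C R' →
        Matches H G R R' →
        ∃ (Z s : C.A (X.prod Y)) (s' : C.A (Y.prod X)), Induces H G Z ∧
          comp C s s' = dg C X ∧ comp C s' s = dg C Y ∧
          ∀ k : ℕ, ∃ Z' : C.A (Y.prod X), InducesInverse H G Z' ∧ RestrictsTo C Z Z' R R' ∧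
            ∀ F : Filtration C, IsCompatible H F → IsGrIso F k Z s Z' s' := by
  have := Run7.h158.chow_of hC
  have := Run7.h158.weil_of hH
  obtain ⟨G, c, s, s', h, hrat, heta⟩ := Run7.h158.exists_lift (Run7.h158.de_of hH D)
  refine ⟨G, Run7.h158.hodgeIso_of hH h.deg hrat heta,
    fun _ hh hne => Run7.h158.lefDiv_st hC hH h.ne h.tr h.deg hrat heta hh hne,
    fun R R' hR hR' hm => ?_⟩
  obtain ⟨Z, s1, s1', h1, h3, h4, h5⟩ := Run7.h158.exists_grIso_all
    (Run7.h158.hk_of hH hX) h (Run7.h158.faithful_of hR) (Run7.h158.faithful_of hR')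
    (Run7.h158.matches_of hR.graded hR'.graded hm)
  refine ⟨Z, s1, s1', Run7.h158.induces_st h1, ?_, ?_, fun k => ?_⟩
  · rw [Run7.h158.st_dgC]
    exact h3
  · rw [Run7.h158.st_dgC]
    exact h4
  · obtain ⟨Z', h6, h7, h8⟩ := h5 k
    exact ⟨Z', Run7.h158.inducesInverse_st h6, Run7.h158.restrictsTo_st h7, fun F hF =>
      Run7.h158.isGrIso_st (h8 F (Run7.h158.compatible_of hF))⟩
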