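import Pool.Agent.Run7.h158.Bridge3

open Pool.Agent.H914 Pool.Agent.H914.VarClass Pool.Agent.H914.VarClass.Obj Pool.Agent.W492.BB
  Run7.h158.St

/-- Let `X` and `Y` be derived equivalent hyper-Kähler varieties, and let `X` have a multiplicative
marking by distinguished cycles (the conditions (⋆) and (⋆_Mult) of Fu and Vial). There is an
isomorphism of Chow motives from `(h(X), ∪)` to `(h(Y), ∪)` respecting the cup-product if and only
if `Y` has a multiplicative marking too. -/
theorem Pool.Agent.Results.MP_7216a2_ag.DistinguishedMarkings.result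
    {𝒱 : VarClass ℂ} {C : TheoryData.{0, 0, 0} 𝒱 ℚ} (hC : IsChowTheory C)
    {H : WeilTheoryData.{0, 0, 0} C ℂ} (hH : IsWeilTheory H) {n : ℕ} {X Y : 𝒱.Obj}
    {V U : Type} [AddCommGroup V] [Module ℂ V] [AddCommGroup U] [Module ℂ U]
    (hX : HyperKahler H n X V) (hY : HyperKahler H n Y U) (D : DerivedEquivalence H hX hY)
    (𝒟 : DistinguishedSystem H) (hm : HasMultiplicativeMarking 𝒟 X) :
    MultiplicativeIso C X Y ↔ HasMultiplicativeMarking 𝒟 Y := by
  have := Run7.h158.chow_of hC
  have := Run7.h158.weil_of hH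
  obtain ⟨G, c, s, s', h, -, -⟩ := Run7.h158.exists_lift (Run7.h158.de_of hH D)
  rw [Run7.h158.marking_iff] at hm
  rw [Run7.h158.marking_iff, Run7.h158.multiplicativeIso_iff]
  refine ⟨fun hi => hm.transport hi, fun hm' => ?_⟩
  obtain ⟨Z, Z', h1, h2, -, -⟩ := Run7.h158.exists_multiplicative_lift hm hm' h.induces
    h.symm.induces
  exact ⟨Z, Z', h1, h2⟩
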