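import Pool.Agent.Run7.h158.Bridge3

open Pool.Agent.H914 Pool.Agent.H914.VarClass Pool.Agent.H914.VarClass.Obj Pool.Agent.W492.BB
  Run7.h158.St

/-- Let `X` and `Y` be derived equivalent hyper-Kähler varieties, and let `𝒬` be a system of good
correspondences (graded subspaces of the Chow groups of products, closed under compositions and
external products) which contains the diagonals and the small diagonals of `X` and `Y`, the
multiplications by divisors, and correspondences `v`, `w` homologically equivalent to the Mukai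
vectors of the kernels of the equivalence and of its inverse. If the cycle class map is injective on
the good cycles on `X × X`, on `Y × Y`, and on the good cycles of codimension `2 dim X` on
`X × X × X`, then there is an isomorphism of Chow motives from `(h(X), ∪)` to `(h(Y), ∪)`
respecting the cup-product, given by good correspondences. -/
theorem Pool.Agent.Results.MP_7216a2_ag.GoodCycles.result
    {𝒱 : VarClass ℂ} {C : TheoryData.{0, 0, 0} 𝒱 ℚ} (hC : IsChowTheory C)
    {H : WeilTheoryData.{0, 0, 0} C ℂ} (hH : IsWeilTheory H) {n : ℕ} {X Y : 𝒱.Obj}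
    {V U : Type} [AddCommGroup V] [Module ℂ V] [AddCommGroup U] [Module ℂ U]
    (hX : HyperKahler H n X V) (hY : HyperKahler H n Y U) (D : DerivedEquivalence H hX hY)
    (𝒬 : GoodSystem C) (gX : IsGood 𝒬 X) (gY : IsGood 𝒬 Y)
    {v : C.A (X.prod Y)} (hv : 𝒬.Q X Y v) (cv : cl H v = cl H D.v)
    {w : C.A (Y.prod X)} (hw : 𝒬.Q Y X w) (cw : cl H w = cl H D.w)
    (iX : ∀ z, 𝒬.Q X X z → cl H z = zero H.toTheoryData (X.prod X) → z = zero C (X.prod X))
    (iY : ∀ z, 𝒬.Q Y Y z → cl H z = zero H.toTheoryData (Y.prod Y) → z = zero C (Y.prod Y))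
    (iXX : ∀ z, 𝒬.Q (X.prod X) X z → C.Deg (2 * X.dim) z →
      cl H z = zero H.toTheoryData ((X.prod X).prod X) → z = zero C ((X.prod X).prod X)) :
    ∃ (Z : C.A (X.prod Y)) (Z' : C.A (Y.prod X)), 𝒬.Q X Y Z ∧ 𝒬.Q Y X Z' ∧
      IsChowInverse C Z Z' ∧ RespectsCup C Z := by
  have := Run7.h158.chow_of hC
  have := Run7.h158.weil_of hH
  obtain ⟨D', rfl, rfl⟩ := Run7.h158.goodDerived D 𝒬 gX gY hv cv hw cw iX iY
  obtain ⟨Z, hZ, Z', hZ', h3, h4⟩ := Run7.h158.good_multiplicativeIso (Run7.h158.de_of hH D')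
    (Run7.h158.isGood_of gX) (Run7.h158.isGood_of gY) hv hw iX iXX
  exact ⟨Z, Z', hZ, hZ', Run7.h158.chowInverse_iff.2 h3, Run7.h158.respectsCup_iff.2 h4⟩
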