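import Pool.Agent.Run7.h158.Bridge4

open Pool.Agent.H914 Pool.Agent.H914.VarClass Pool.Agent.H914.VarClass.Obj Pool.Agent.W492.BB
  Run7.h158.St

/-- Let `X` and `Y` be derived equivalent hyper-Kähler varieties such that the homologically trivial
self-correspondences of `X` (or of `Y`) are nilpotent; by `Run7.h158.homNil_st` this holds if the
Chow motive of `X` (or of `Y`) is finite-dimensional in the sense of Kimura. There are an
isomorphism `G` of graded algebras from `H^*(X)` to `H^*(Y)`, respecting the rational classes and
the Hodge structures, and a nonzero rational number `r` such that, for all graded subspaces `R` and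
`R'` of the Chow rings of `X` and `Y` without nonzero numerically trivial classes and with
`G (cl R) = cl R'`, there is an isomorphism of Chow motives `Z` from `h(X)` to `h(Y)` which

* induces `G` and respects the cup-product modulo homological equivalence,
* satisfies `[Zᵗ] ∘ [Z] = r² [Δ_X]` and `[Z] ∘ [Zᵗ] = r² [Δ_Y]`,
* restricts to an isomorphism from `R` to `R'` respecting the products which stay in these
  subspaces,
* induces homomorphisms of bigraded rings from `Gr_F CH^*(T × X)` to `Gr_F CH^*(T × Y)`, for all
  varieties `T` and all filtrations `F` of the Chow groups which are compatible with products,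
  pull-backs and push-forwards and begin with `F^1 =` homologically trivial cycles. -/
theorem Pool.Agent.Results.MP_7216a2_ag.NilpotentCase.result
    {𝒱 : VarClass ℂ} {C : TheoryData.{0, 0, 0} 𝒱 ℚ} (hC : IsChowTheory C)
    {H : WeilTheoryData.{0, 0, 0} C ℂ} (hH : IsWeilTheory H) {n : ℕ} {X Y : 𝒱.Obj}
    {V U : Type} [AddCommGroup V] [Module ℂ V] [AddCommGroup U] [Module ℂ U]
    (hX : HyperKahler H n X V) (hY : HyperKahler H n Y U) (D : DerivedEquivalence H hX hY)
    (hN : HomNil H X ∨ HomNil H Y) :
    ∃ (G : H.A X → H.A Y) (r : ℚ), RespectsHodge H hX hY G ∧ r ≠ 0 ∧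
      ∀ (R : C.A X → Prop) (R' : C.A Y → Prop), IsFaithful C R → IsFaithful C R' →
        Matches H G R R' →
        ∃ Z : C.A (X.prod Y), IsSimilitude H G (r ^ 2) Z ∧ RespectsCupHom H Z ∧
          RestrictsTo C Z (smul C (r ^ 2)⁻¹ (tp C Z)) R R' ∧
          ∀ F : Filtration C, IsCompatible H F → InducesGrHom F Z := by
  have := Run7.h158.chow_of hC
  have := Run7.h158.weil_of hH
  obtain ⟨G, c, s, s', h, hrat, heta⟩ := Run7.h158.exists_lift (Run7.h158.de_of hH D)
  have hnil : Run7.h158.HomNil H X := by
    rcases hN with hN | hN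
    · exact Run7.h158.homNil_of hN
    · exact Run7.h158.HomNil.of_inverse h.left h.right inferInstance (Run7.h158.homNil_of hN)
  refine ⟨G, c, Run7.h158.hodgeIso_of hH h.deg hrat heta, h.ne, fun R R' hR hR' hm => ?_⟩
  obtain ⟨Z, hZ, hr⟩ := Run7.h158.exists_similitude_restr (Run7.h158.hk_of hH hX)
    (Run7.h158.hk_of hH hY) h hnil (Run7.h158.faithful_of hR) (Run7.h158.faithful_of hR')
    (Run7.h158.matches_of hR.graded hR'.graded hm)
  exact ⟨Z, Run7.h158.similitude_st hZ, Run7.h158.respectsCupHom_st hZ.induces.respectsCupHom,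
    Run7.h158.restrictsTo_st hr, fun F hF =>
      Run7.h158.inducesGrHom_st (hZ.induces.inducesGrHom (Run7.h158.compatible_of hF))⟩
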